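import Pool.Agent.helper17.EXT.Spec

/-!
# MP_561ff4, project EXT, row WST: transitivity of the relative Weyl group of type `F₄`

The roots are numbered by their place in `RL`; `WST_tb i` is the action of `wS i` (`i = 0, 1, 2, 3`) on the numbers. For every long root a word
is given which maps it to `sr 1` (number 4), for every long root a word which fixes `sr 1` and maps it to a standard root, for every short root a
word which maps it to `sr 0` (number 5).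
-/

set_option autoImplicit false

open Finset

namespace Pool.Agent.EXT

open Pool.Agent.EXC

/-- the root with number `k` -/
def WST_rt (k : ℕ) : Fin 6 → ℤ := RL.getD k 0

/-- the action of `wS i` on the numbers -/
def WST_tb : Fin 4 → List ℕ := ![
  [36, 6, 2, 10, 4, 41, 1, 11, 15, 9, 3, 7, 23, 17, 20, 8, 19, 13, 26, 16, 14, 24, 29, 12,
    21, 27, 18, 25, 31, 22, 32, 28, 30, 33, 34, 35, 0, 42, 38, 46, 40, 5, 37, 47, 51, 45, 39, 43,
    59, 53, 56, 44, 55, 49, 62, 52, 50, 60, 65, 48, 57, 63, 54, 61, 67, 58, 68, 64, 66, 69, 70, 71],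
  [0, 1, 9, 3, 40, 5, 6, 13, 14, 2, 10, 17, 18, 7, 8, 20, 21, 11, 12, 24, 15, 16, 22, 26,
    19, 25, 23, 27, 28, 29, 30, 31, 32, 33, 35, 34, 36, 37, 45, 39, 4, 41, 42, 49, 50, 38, 46, 53,
    54, 43, 44, 56, 57, 47, 48, 60, 51, 52, 58, 62, 55, 61, 59, 63, 64, 65, 66, 67, 68, 69, 71, 70],
  [6, 37, 12, 39, 4, 10, 0, 8, 7, 18, 5, 16, 2, 14, 13, 19, 11, 21, 9, 15, 24, 17, 22, 23,
    20, 28, 26, 30, 25, 33, 27, 32, 31, 29, 34, 35, 42, 1, 48, 3, 40, 46, 36, 44, 43, 54, 41, 52,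
    38, 50, 49, 55, 47, 57, 45, 51, 60, 53, 58, 59, 56, 64, 62, 66, 61, 69, 63, 68, 67, 65, 70, 71],
  [0, 7, 38, 8, 9, 5, 11, 1, 3, 4, 15, 6, 12, 13, 14, 10, 16, 17, 22, 19, 20, 25, 18, 23,
    27, 21, 29, 24, 28, 26, 30, 31, 32, 34, 33, 35, 36, 43, 2, 44, 45, 41, 47, 37, 39, 40, 51, 42,
    48, 49, 50, 46, 52, 53, 58, 55, 56, 61, 54, 59, 63, 57, 65, 60, 64, 62, 66, 67, 68, 70, 69, 71]]

/-- numbers of the long roots -/
def WST_long : List ℕ := [2, 4, 9, 12, 18, 22, 23, 26, 29, 33, 34, 35, 38, 40, 45, 48, 54, 58, 59, 62, 65, 69, 70, 71]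

/-- words from the long roots to `sr 1` -/
def WST_A : List (List (Fin 4)) := [
  [], [], [1, 3], [], [], [],
  [], [], [], [3], [], [],
  [2, 1, 3], [], [], [], [], [],
  [2, 3], [], [], [], [3, 2, 3], [0, 2, 1, 3],
  [], [], [0, 2, 3], [], [], [3, 0, 2, 3],
  [], [], [], [2, 3, 0, 2, 3], [3, 2, 3, 0, 2, 3], [1, 3, 2, 3, 0, 2, 3],
  [], [], [1, 3, 1], [], [1], [],
  [], [], [], [3, 1], [], [],
  [2, 1, 3, 1], [], [], [], [], [],
  [2, 3, 1], [], [], [], [3, 2, 3, 1], [0, 2, 1, 3, 1],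
  [], [], [0, 2, 3, 1], [], [], [3, 0, 2, 3, 1],
  [], [], [], [2, 3, 0, 2, 3, 1], [3, 2, 3, 0, 2, 3, 1], [1, 3, 2, 3, 0, 2, 3, 1]]

/-- words in the stabiliser of `sr 1` -/
def WST_B : List (List (Fin 4)) := [
  [], [], [], [], [], [],
  [], [], [], [], [], [],
  [2], [], [], [], [], [],
  [2], [], [], [], [], [0, 2],
  [], [], [0, 2], [], [], [0],
  [], [], [], [2, 0], [3, 2, 1, 3, 2, 1, 3, 0, 2], [3, 2, 1, 3, 2, 1, 3, 0, 2],
  [], [], [3, 2, 1, 3, 2, 1, 3, 2], [], [], [],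
  [], [], [], [3, 2, 1, 3, 2, 1, 3, 2], [], [],
  [3, 2, 1, 3, 2, 1, 3], [], [], [], [], [],
  [3, 2, 1, 3, 2, 1, 3], [], [], [], [3, 2, 1, 3, 2, 1, 3], [3, 0, 2, 1, 3, 2, 1, 3],
  [], [], [3, 0, 2, 1, 3, 2, 1, 3], [], [], [3, 0, 2, 1, 3, 2, 1, 3],
  [], [], [], [2, 3, 0, 2, 1, 3, 2, 1, 3], [3, 2, 1, 3, 0, 2, 3, 0, 2, 1, 3], [3, 2, 1, 3, 0, 2, 3, 0, 2, 1, 3]]

/-- words from the short roots to `sr 0` -/
def WST_C : List (List (Fin 4)) := [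
  [2, 3, 0, 2, 3, 0, 2], [3, 2, 3, 0, 2], [], [0, 2], [], [],
  [3, 0, 2, 3, 0, 2], [2, 3, 0, 2], [3, 0, 2], [], [2], [0, 2, 3, 0, 2],
  [], [2, 1, 3, 0, 2], [1, 3, 0, 2], [3, 2], [0, 2, 3, 2], [0, 2, 1, 3, 0, 2],
  [], [2, 3, 2], [1, 3, 2], [0, 2, 1, 3, 2], [], [],
  [2, 1, 3, 2], [3, 0, 2, 1, 3, 2], [], [3, 2, 1, 3, 2], [2, 3, 0, 2, 1, 3, 2], [],
  [2, 3, 2, 1, 3, 2], [0, 2, 3, 0, 2, 1, 3, 2], [0, 2, 3, 2, 1, 3, 2], [], [], [],
  [2, 3, 0, 2, 3, 0, 2, 0], [3, 2, 3, 0, 2, 0], [], [0, 2, 0], [], [0],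
  [3, 0, 2, 3, 0, 2, 0], [2, 3, 0, 2, 0], [3, 0, 2, 0], [], [2, 0], [0, 2, 3, 0, 2, 0],
  [], [2, 1, 3, 0, 2, 0], [1, 3, 0, 2, 0], [3, 2, 0], [0, 2, 3, 2, 0], [0, 2, 1, 3, 0, 2, 0],
  [], [2, 3, 2, 0], [1, 3, 2, 0], [0, 2, 1, 3, 2, 0], [], [],
  [2, 1, 3, 2, 0], [3, 0, 2, 1, 3, 2, 0], [], [3, 2, 1, 3, 2, 0], [2, 3, 0, 2, 1, 3, 2, 0], [],
  [2, 3, 2, 1, 3, 2, 0], [0, 2, 3, 0, 2, 1, 3, 2, 0], [0, 2, 3, 2, 1, 3, 2, 0], [], [], []]
/-- the node `i` -/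
def WST_nd (i : Fin 4) : Fin 6 := Fin.castLE (by norm_num) i

/-- one step on the numbers -/
def WST_st (i : Fin 4) (k : ℕ) : ℕ := (WST_tb i).getD k 0

/-- a word on the numbers -/
def WST_run : List (Fin 4) → ℕ → ℕ
  | [], k => k
  | i :: w, k => WST_run w (WST_st i k)

/-- number of the standard long root with product `m` with `sr 1` -/
def WST_std (m : ℤ) : ℕ := if m = 2 then 4 else if m = 1 then 9 else if m = 0 then 22 else if m = -1 then 2 else 40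

theorem WST_tab : ∀ i : Fin 4, ∀ k : Fin 72, wS (WST_nd i) (WST_rt k) = WST_rt (WST_st i k) := by
  decide +kernel

theorem WST_lt : ∀ i : Fin 4, ∀ k : Fin 72, WST_st i k < 72 := by
  decide +kernel

theorem WST_lg : ∀ k : Fin 72, pv (WST_rt k) = WST_rt k → (k : ℕ) ∈ WST_long := by
  decide +kernel

theorem WST_chk : ∀ k ∈ WST_long, ∀ l ∈ WST_long,
    WST_run (WST_B.getD (WST_run (WST_A.getD k []) l) []) (WST_run (WST_A.getD k []) k) = 4 ∧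
    WST_run (WST_B.getD (WST_run (WST_A.getD k []) l) []) (WST_run (WST_A.getD k []) l) =
      WST_std (ip C6 (WST_rt k) (WST_rt l)) := by
  decide +kernel

theorem WST_chs : ∀ k : Fin 72, pv (WST_rt k) ≠ WST_rt k → WST_run (WST_C.getD k []) k = 5 := by
  decide +kernel

theorem WST_five : WST_rt 5 = sr 0 := by
  decide +kernel

theorem WST_run_lt (w : List (Fin 4)) : ∀ k : ℕ, k < 72 → WST_run w k < 72 := by
  induction w with
  | nil => exact fun k hk => hk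
  | cons i w ih => exact fun k hk => ih _ (WST_lt i ⟨k, hk⟩)

theorem WST_run_WS (w : List (Fin 4)) : ∀ k l : ℕ, k < 72 → l < 72 →
    WS (WST_rt k, WST_rt l) (WST_rt (WST_run w k), WST_rt (WST_run w l)) := by
  induction w with
  | nil => exact fun k l _ _ => Relation.ReflTransGen.refl
  | cons i w ih =>
    intro k l hk hl
    refine Relation.ReflTransGen.head (b := (WST_rt (WST_st i k), WST_rt (WST_st i l))) ⟨WST_nd i, ?_⟩
      (ih _ _ (WST_lt i ⟨k, hk⟩) (WST_lt i ⟨l, hl⟩))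
    rw [← WST_tab i ⟨k, hk⟩, ← WST_tab i ⟨l, hl⟩]

theorem WST_idx (v : Fin 6 → ℤ) (h : v ∈ RL) : ∃ k : Fin 72, WST_rt k = v := by
  obtain ⟨n, hn, he⟩ := List.mem_iff_getElem.mp h
  have hn' : n < 72 := hn
  refine ⟨⟨n, hn'⟩, ?_⟩
  unfold WST_rt
  rw [← he]
  exact List.getD_eq_getElem RL 0 hn

/-! ## the reflections -/

theorem WST_comm (i j : Fin 6) (h : ip C6 (sr i) (sr j) = 0) (v : Fin 6 → ℤ) :
    rf C6 i (rf C6 j v) = rf C6 j (rf C6 i v) := by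
  have h' : ip C6 (sr j) (sr i) = 0 := by rw [ip_comm]; exact h
  unfold rf
  rw [ip_sub_left, ip_sub_left, ip_smul_left, ip_smul_left, h, h']
  simp only [mul_zero, sub_zero]
  abel

theorem WST_orth : ∀ i : Fin 6, pn i ≠ i → ip C6 (sr i) (sr (pn i)) = 0 := by
  decide +kernel

theorem WST_pn : ∀ i : Fin 6, pn (pn i) = i := by
  decide +kernel

theorem WST_ip (i : Fin 6) (v w : Fin 6 → ℤ) : ip C6 (wS i v) (wS i w) = ip C6 v w := by
  unfold wS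
  split_ifs
  · exact (f_RFL 6 C6 i v w).1
  · rw [(f_RFL 6 C6 i _ _).1, (f_RFL 6 C6 (pn i) _ _).1]

theorem WST_inv (i : Fin 6) (v : Fin 6 → ℤ) : wS i (wS i v) = v := by
  unfold wS
  split_ifs with h
  · exact (f_RFL 6 C6 i v v).2.1
  · rw [WST_comm i (pn i) (WST_orth i h) (rf C6 i (rf C6 (pn i) v)), (f_RFL 6 C6 i (rf C6 (pn i) v) v).2.1,
      (f_RFL 6 C6 (pn i) v v).2.1]

theorem WST_pvrf (hRTF : RTF_stmt) (i : Fin 6) (v : Fin 6 → ℤ) : pv (rf C6 i v) = rf C6 (pn i) (pv v) := by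
  obtain ⟨h1, -, -, -, h5, -⟩ := hRTF
  have h6 : ip C6 (pv v) (sr (pn i)) = ip C6 v (sr i) := by rw [← h5, h1]
  unfold rf
  rw [h6, ← h5]
  funext j
  simp only [pv, Pi.sub_apply, Pi.smul_apply]

theorem WST_pvw (hRTF : RTF_stmt) (i : Fin 6) (v : Fin 6 → ℤ) : pv (wS i v) = wS i (pv v) := by
  unfold wS
  split_ifs with h
  · rw [WST_pvrf hRTF, h]
  · rw [WST_pvrf hRTF, WST_pvrf hRTF, WST_pn]
    exact (WST_comm i (pn i) (WST_orth i h) (pv v)).symm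

theorem WST_fix (hRTF : RTF_stmt) (i : Fin 6) (v : Fin 6 → ℤ) : pv v = v ↔ pv (wS i v) = wS i v := by
  rw [WST_pvw hRTF]
  constructor
  · intro h
    rw [h]
  · intro h
    have h1 := congrArg (wS i) h
    rwa [WST_inv, WST_inv] at h1

theorem WST_symm : ∀ p q, WS p q → WS q p := by
  intro p q h
  induction h with
  | refl => exact Relation.ReflTransGen.refl
  | tail _ hs ih =>
    obtain ⟨i, rfl⟩ := hs
    refine Relation.ReflTransGen.head ⟨i, ?_⟩ ih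
    simp only [WST_inv]

theorem WST_all (hRTF : RTF_stmt) : ∀ p q, WS p q → ip C6 q.1 q.2 = ip C6 p.1 p.2 ∧ ip C6 q.1 q.1 = ip C6 p.1 p.1 ∧
    ip C6 q.2 q.2 = ip C6 p.2 p.2 ∧ (pv p.1 = p.1 ↔ pv q.1 = q.1) ∧ (pv p.2 = p.2 ↔ pv q.2 = q.2) := by
  intro p q h
  induction h with
  | refl => exact ⟨rfl, rfl, rfl, Iff.rfl, Iff.rfl⟩
  | tail _ hs ih =>
    obtain ⟨i, rfl⟩ := hs
    obtain ⟨h1, h2, h3, h4, h5⟩ := ih
    exact ⟨(WST_ip i _ _).trans h1, (WST_ip i _ _).trans h2, (WST_ip i _ _).trans h3,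
      h4.trans (WST_fix hRTF i _), h5.trans (WST_fix hRTF i _)⟩

theorem WST (hLST : LST_stmt) (hRTF : RTF_stmt) : WST_stmt := by
  have key : ∀ α β, LR α → LR β → WS (α, β) (WST_rt 4, WST_rt (WST_std (ip C6 α β))) := by
    intro α β hα hβ
    obtain ⟨k, rfl⟩ := WST_idx α ((hLST α).mp hα.1)
    obtain ⟨l, rfl⟩ := WST_idx β ((hLST β).mp hβ.1)
    have hk := WST_lg k hα.2
    have hl := WST_lg l hβ.2
    obtain ⟨h1, h2⟩ := WST_chk k hk l hl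
    have h3 := WST_run_WS (WST_A.getD k []) k l k.2 l.2
    have h4 := WST_run_WS (WST_B.getD (WST_run (WST_A.getD k []) l) []) _ _ (WST_run_lt (WST_A.getD k []) k k.2)
      (WST_run_lt (WST_A.getD k []) l l.2)
    rw [h1, h2] at h4
    exact h3.trans h4
  refine ⟨fun α β α' β' h1 h2 h3 h4 h5 => ?_, fun γ hγ => ?_, fun p q h => ?_⟩
  · have h6 := key α β h1 h2
    have h7 := key α' β' h3 h4
    rw [← h5] at h7
    exact h6.trans (WST_symm _ _ h7)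
  · obtain ⟨k, rfl⟩ := WST_idx γ ((hLST γ).mp hγ.1)
    have h1 := WST_chs k hγ.2
    have h2 := WST_run_WS (WST_C.getD k []) k k k.2 k.2
    rw [h1, WST_five] at h2
    exact h2
  · obtain ⟨h1, h2, h3, h4, h5⟩ := WST_all hRTF p q h
    exact ⟨h1, h2, h3, h4, h5, WST_symm p q h⟩

end Pool.Agent.EXT
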